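import Mathlib

/-!
Cleaning lemma for `k`-partite families (relations `R ⊆ V^k`), after Furedi (1983):
every relation contains a subrelation of positive proportion (depending on `k` only) whose set of
agreement patterns is closed under intersection.
-/

set_option autoImplicit false

open Finset

namespace Pool.Agent.H480R2.LS

variable {k : ℕ} {V : Type*} [DecidableEq V]

/-- the set of coordinates where two tuples agree -/
def agr (f g : Fin k → V) : Finset (Fin k) := Finset.univ.filter fun i => f i = g i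

theorem mem_agr {f g : Fin k → V} {i : Fin k} : i ∈ agr f g ↔ f i = g i := by
  simp [agr]

theorem agr_ne_univ {f g : Fin k → V} (h : f ≠ g) : agr f g ≠ Finset.univ := by
  intro he
  apply h
  funext i
  exact mem_agr.mp (he ▸ Finset.mem_univ i)

theorem agr_comm (f g : Fin k → V) : agr f g = agr g f := by
  ext i; simp [mem_agr, eq_comm]

/-- the patterns occurring in `R` lie in `T` -/
def PatIn (R : Finset (Fin k → V)) (T : Finset (Finset (Fin k))) : Prop :=
  ∀ f ∈ R, ∀ g ∈ R, f ≠ g → agr f g ∈ T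

/-- `A` is rich at `f` in `R`: there is a sunflower of `k+1` tuples with kernel `f|A` -/
def Rich (R : Finset (Fin k → V)) (A : Finset (Fin k)) (f : Fin k → V) : Prop :=
  ∃ M : Finset (Fin k → V), M ⊆ R ∧ k + 1 ≤ M.card ∧ (∀ g ∈ M, ∀ i ∈ A, g i = f i) ∧
    ∀ g ∈ M, ∀ h ∈ M, g ≠ h → agr g h = A

theorem Rich.mono {R S : Finset (Fin k → V)} {A : Finset (Fin k)} {f : Fin k → V}
    (h : Rich R A f) (hRS : R ⊆ S) : Rich S A f := by
  obtain ⟨M, h1, h2, h3, h4⟩ := h
  exact ⟨M, h1.trans hRS, h2, h3, h4⟩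

/-- in a sunflower with `k+1` petals some member avoids a given tuple outside the kernel -/
theorem exists_avoid {A : Finset (Fin k)} {M : Finset (Fin k → V)} (hM : k + 1 ≤ M.card)
    (hp : ∀ g ∈ M, ∀ h ∈ M, g ≠ h → agr g h = A) (u : Fin k → V) :
    ∃ g ∈ M, ∀ i, i ∉ A → g i ≠ u i := by
  by_contra hcon
  push Not at hcon
  have hMne : M.Nonempty := by rw [← Finset.card_pos]; omega
  obtain ⟨g0, hg0⟩ := hMne
  obtain ⟨i0, _⟩ := hcon g0 hg0
  have : Nonempty (Fin k) := ⟨i0⟩
  choose! c hc using hcon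
  have hinj : Set.InjOn c (M : Set (Fin k → V)) := by
    intro g hg h hh hgh
    by_contra hne
    have h1 := hc g hg
    have h2 := hc h hh
    have h3 : c g ∈ agr g h := by
      rw [mem_agr, h1.2, hgh, h2.2]
    rw [hp g hg h hh hne] at h3
    exact h1.1 h3
  have h4 := Finset.card_le_card_of_injOn c (fun g _ => Finset.mem_univ _) hinj
  simp at h4
  omega

/-- a family in which every type of `T` is rich everywhere realises intersections of types -/
theorem inter_of_rich {R : Finset (Fin k → V)} {A B : Finset (Fin k)} {f : Fin k → V}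
    (hA : Rich R A f) (hB : Rich R B f) :
    ∃ g ∈ R, ∃ h ∈ R, agr g h = A ∩ B := by
  obtain ⟨M, hM1, hM2, hM3, hM4⟩ := hA
  obtain ⟨N, hN1, hN2, hN3, hN4⟩ := hB
  obtain ⟨h, hh, hh'⟩ := exists_avoid hN2 hN4 f
  obtain ⟨g, hg, hg'⟩ := exists_avoid hM2 hM4 h
  refine ⟨g, hM1 hg, h, hN1 hh, ?_⟩
  ext i
  rw [mem_agr, Finset.mem_inter]
  constructor
  · intro hi
    have hiA : i ∈ A := by
      by_contra hiA
      exact hg' i hiA hi
    refine ⟨hiA, ?_⟩
    by_contra hiB
    apply hh' i hiB
    rw [← hi, hM3 g hg i hiA]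
  · rintro ⟨hiA, hiB⟩
    rw [hM3 g hg i hiA, hN3 h hh i hiB]

/-- a fibre without a large sunflower contains a proportion `1/k^2` without the pattern `A` -/
theorem poor_fibre {A : Finset (Fin k)} (hA : A ≠ Finset.univ) (Φ : Finset (Fin k → V))
    (f : Fin k → V) (hΦ : ∀ g ∈ Φ, ∀ i ∈ A, g i = f i) (hpoor : ¬ Rich Φ A f) :
    ∃ Ψ ⊆ Φ, Φ.card ≤ k * k * Ψ.card ∧ ∀ g ∈ Ψ, ∀ h ∈ Ψ, agr g h ≠ A := by
  classical
  -- a maximal sunflower
  obtain ⟨M, hMmem, hMmax⟩ := Finset.exists_max_image
    (Φ.powerset.filter fun M => ∀ g ∈ M, ∀ h ∈ M, g ≠ h → agr g h = A) Finset.card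
    ⟨∅, by simp⟩
  rw [Finset.mem_filter, Finset.mem_powerset] at hMmem
  obtain ⟨hMΦ, hMp⟩ := hMmem
  have hMk : M.card ≤ k := by
    by_contra hlt
    exact hpoor ⟨M, hMΦ, by omega, fun g hg => hΦ g (hMΦ hg), hMp⟩
  obtain ⟨c0, hc0⟩ : ∃ c, c ∉ A := by
    by_contra hall
    push Not at hall
    exact hA (Finset.eq_univ_iff_forall.mpr hall)
  have hcover : ∀ g ∈ Φ, ∃ m ∈ M, ∃ c, c ∉ A ∧ g c = m c := by
    intro g hg
    by_cases hgM : g ∈ M
    · exact ⟨g, hgM, c0, hc0, rfl⟩
    · by_contra hcon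
      push Not at hcon
      have hins : insert g M ∈ Φ.powerset.filter fun M => ∀ g ∈ M, ∀ h ∈ M, g ≠ h → agr g h = A := by
        rw [Finset.mem_filter, Finset.mem_powerset]
        have key : ∀ m ∈ M, agr g m = A := by
          intro m hm
          ext i
          rw [mem_agr]
          constructor
          · intro h
            by_contra hi
            exact hcon m hm i hi h
          · intro hi
            rw [hΦ g hg i hi, hΦ m (hMΦ hm) i hi]
        refine ⟨Finset.insert_subset hg hMΦ, ?_⟩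
        intro a ha b hb hab
        rw [Finset.mem_insert] at ha hb
        rcases ha with ha | ha <;> rcases hb with hb | hb
        · exact absurd (ha.trans hb.symm) hab
        · rw [ha]; exact key b hb
        · rw [hb, agr_comm]; exact key a ha
        · exact hMp a ha b hb hab
      have := hMmax _ hins
      rw [Finset.card_insert_of_notMem hgM] at this
      omega
  -- pigeonhole
  have hsub : Φ ⊆ (M ×ˢ (Finset.univ.filter fun c : Fin k => c ∉ A)).biUnion
      (fun p => Φ.filter fun g => g p.2 = p.1 p.2) := by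
    intro g hg
    obtain ⟨m, hm, c, hc, hgc⟩ := hcover g hg
    rw [Finset.mem_biUnion]
    exact ⟨(m, c), by simp [hm, hc], by simp [hg, hgc]⟩
  set S := M ×ˢ (Finset.univ.filter fun c : Fin k => c ∉ A) with hS
  have hScard : S.card ≤ k * k := by
    rw [hS, Finset.card_product]
    apply Nat.mul_le_mul hMk
    calc _ ≤ (Finset.univ : Finset (Fin k)).card := Finset.card_filter_le _ _
      _ = k := by simp
  by_cases hΦe : Φ = ∅
  · refine ⟨∅, by simp, by simp [hΦe], by simp⟩
  have hSne : S.Nonempty := by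
    by_contra hne
    rw [Finset.not_nonempty_iff_eq_empty] at hne
    rw [hne] at hsub
    simp at hsub
    exact hΦe hsub
  obtain ⟨p, hp, hpmax⟩ := Finset.exists_max_image S
    (fun p => (Φ.filter fun g => g p.2 = p.1 p.2).card) hSne
  refine ⟨Φ.filter fun g => g p.2 = p.1 p.2, Finset.filter_subset _ _, ?_, ?_⟩
  · calc Φ.card ≤ _ := Finset.card_le_card hsub
      _ ≤ ∑ q ∈ S, (Φ.filter fun g => g q.2 = q.1 q.2).card := Finset.card_biUnion_le
      _ ≤ ∑ q ∈ S, (Φ.filter fun g => g p.2 = p.1 p.2).card := Finset.sum_le_sum hpmax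
      _ = S.card * (Φ.filter fun g => g p.2 = p.1 p.2).card := by rw [Finset.sum_const, smul_eq_mul]
      _ ≤ k * k * (Φ.filter fun g => g p.2 = p.1 p.2).card := Nat.mul_le_mul_right _ hScard
  · intro g hg h hh heq
    rw [Finset.mem_filter] at hg hh
    have h1 : p.2 ∈ agr g h := by rw [mem_agr, hg.2, hh.2]
    rw [heq] at h1
    rw [hS, Finset.mem_product, Finset.mem_filter] at hp
    exact hp.2.2 h1

/-- peeling -/
theorem peel (T : Finset (Finset (Fin k))) (hT : Finset.univ ∉ T) :
    ∀ (N : ℕ) (R : Finset (Fin k → V)), R.card ≤ N →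
    ∃ (S : Finset (Fin k → V)) (H : Finset (Fin k) → Finset (Fin k → V)),
      S ⊆ R ∧ (∀ A ∈ T, ∀ f ∈ S, Rich S A f) ∧
      (∀ A ∈ T, H A ⊆ R ∧ ∀ g ∈ H A, ∀ h ∈ H A, agr g h ≠ A) ∧
      R.card ≤ S.card + k * k * ∑ A ∈ T, (H A).card := by
  classical
  intro N
  induction N with
  | zero =>
    intro R hR
    have : R = ∅ := by simpa using hR
    subst this
    exact ⟨∅, fun _ => ∅, by simp, by simp, by simp, by simp⟩
  | succ N ih =>
    intro R hR
    by_cases hst : ∀ A ∈ T, ∀ f ∈ R, Rich R A f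
    · refine ⟨R, fun _ => ∅, Finset.Subset.refl _, hst, by simp, by simp⟩
    · push Not at hst
      obtain ⟨A, hA, f, hf, hpoor⟩ := hst
      set Φ := R.filter fun g => ∀ i ∈ A, g i = f i with hΦ
      have hfΦ : f ∈ Φ := by rw [hΦ, Finset.mem_filter]; exact ⟨hf, fun _ _ => rfl⟩
      have hΦR : Φ ⊆ R := Finset.filter_subset _ _
      obtain ⟨Ψ, hΨ1, hΨ2, hΨ3⟩ := poor_fibre (fun h => hT (h ▸ hA)) Φ f
        (fun g hg => (Finset.mem_filter.mp hg).2) (fun hr => hpoor (hr.mono hΦR))
      have hcard : (R \ Φ).card + Φ.card = R.card := by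
        rw [Finset.card_sdiff_add_card_eq_card hΦR]
      have hpos : 0 < Φ.card := Finset.card_pos.mpr ⟨f, hfΦ⟩
      obtain ⟨S, H, hS1, hS2, hS3, hS4⟩ := ih (R \ Φ) (by omega)
      refine ⟨S, Function.update H A (H A ∪ Ψ), hS1.trans Finset.sdiff_subset, hS2, ?_, ?_⟩
      · intro B hB
        by_cases hBA : B = A
        · subst hBA
          rw [Function.update_self]
          refine ⟨Finset.union_subset ((hS3 B hB).1.trans Finset.sdiff_subset) (hΨ1.trans hΦR), ?_⟩
          have hdiff : ∀ g ∈ H B, ∀ h ∈ Ψ, agr g h ≠ B := by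
            intro g hg h hh heq
            have h1 := (hS3 B hB).1 hg
            rw [Finset.mem_sdiff, hΦ, Finset.mem_filter] at h1
            apply h1.2
            refine ⟨h1.1, fun i hi => ?_⟩
            have h2 := (Finset.mem_filter.mp (hΨ1 hh)).2 i hi
            rw [← heq, mem_agr] at hi
            rw [hi, h2]
          intro g hg h hh
          rw [Finset.mem_union] at hg hh
          rcases hg with hg | hg <;> rcases hh with hh | hh
          · exact (hS3 B hB).2 g hg h hh
          · exact hdiff g hg h hh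
          · rw [agr_comm]; exact hdiff h hh g hg
          · exact hΨ3 g hg h hh
        · rw [Function.update_of_ne hBA]
          exact ⟨(hS3 B hB).1.trans Finset.sdiff_subset, (hS3 B hB).2⟩
      · have hdisj : Disjoint (H A) Ψ := by
          rw [Finset.disjoint_left]
          intro g hg hg'
          have h1 := (hS3 A hA).1 hg
          rw [Finset.mem_sdiff] at h1
          exact h1.2 (hΨ1 hg')
        have hsum : ∑ B ∈ T, (Function.update H A (H A ∪ Ψ) B).card =
            ∑ B ∈ T, (H B).card + Ψ.card := by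
          rw [← Finset.add_sum_erase T _ hA, ← Finset.add_sum_erase T (fun B => (H B).card) hA,
            Function.update_self, Finset.card_union_of_disjoint hdisj]
          have : ∑ x ∈ T.erase A, (Function.update H A (H A ∪ Ψ) x).card =
              ∑ x ∈ T.erase A, (H x).card := by
            apply Finset.sum_congr rfl
            intro B hB
            rw [Function.update_of_ne (Finset.ne_of_mem_erase hB)]
          rw [this]
          ring
        rw [hsum, Nat.mul_add]
        omega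

/-- the constants of the cleaning lemma -/
def Kc (k : ℕ) : ℕ → ℕ
  | 0 => 1
  | (p+1) => 1 + k * k * ((p + 1) * Kc k p)

theorem Kc_pos (k p : ℕ) : 1 ≤ Kc k p := by
  cases p with
  | zero => exact le_rfl
  | succ p => unfold Kc; omega

/-- cleaning -/
theorem clean : ∀ (p : ℕ) (T : Finset (Finset (Fin k))) (_ : T.card = p) (_ : Finset.univ ∉ T)
    (R : Finset (Fin k → V)) (_ : PatIn R T),
    ∃ S ⊆ R, R.card ≤ Kc k p * S.card ∧
      ∃ T' ⊆ T, PatIn S T' ∧ ∀ A ∈ T', ∀ f ∈ S, Rich S A f := by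
  classical
  intro p
  induction p with
  | zero =>
    intro T hT hu R hR
    have hT0 : T = ∅ := Finset.card_eq_zero.mp hT
    subst hT0
    refine ⟨R, Finset.Subset.refl _, by simp [Kc], ∅, by simp, hR, by simp⟩
  | succ p ih =>
    intro T hT hu R hR
    obtain ⟨S, H, hS1, hS2, hS3, hS4⟩ := peel T hu R.card R le_rfl
    have hstep : ∀ A ∈ T, ∃ S' ⊆ R, (H A).card ≤ Kc k p * S'.card ∧
        ∃ T' ⊆ T, PatIn S' T' ∧ ∀ A ∈ T', ∀ f ∈ S', Rich S' A f := by
      intro A hA
      obtain ⟨S', h1, h2, T', h3, h4, h5⟩ := ih (T.erase A) (by rw [Finset.card_erase_of_mem hA, hT]; rfl)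
        (fun h => hu (Finset.mem_of_mem_erase h)) (H A) (by
          intro f hf g hg hfg
          rw [Finset.mem_erase]
          exact ⟨(hS3 A hA).2 f hf g hg, hR f ((hS3 A hA).1 hf) g ((hS3 A hA).1 hg) hfg⟩)
      exact ⟨S', h1.trans (hS3 A hA).1, h2, T', h3.trans (Finset.erase_subset _ _), h4, h5⟩
    choose! S' hS' using hstep
    -- choose the best candidate
    by_cases hbig : ∃ A ∈ T, S.card ≤ (S' A).card ∧ ∀ B ∈ T, (S' B).card ≤ (S' A).card
    · obtain ⟨A, hA, hA1, hA2⟩ := hbig
      refine ⟨S' A, (hS' A hA).1, ?_, (hS' A hA).2.2⟩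
      calc R.card ≤ S.card + k * k * ∑ B ∈ T, (H B).card := hS4
        _ ≤ (S' A).card + k * k * ∑ B ∈ T, Kc k p * (S' A).card := by
            gcongr with B hB
            exact ((hS' B hB).2.1).trans (Nat.mul_le_mul_left _ (hA2 B hB))
        _ = Kc k (p+1) * (S' A).card := by
            rw [Finset.sum_const, hT, smul_eq_mul, Kc]; ring
    · push Not at hbig
      have hTne : T.Nonempty := by rw [← Finset.card_pos, hT]; omega
      obtain ⟨A, hA, hAmax⟩ := Finset.exists_max_image T (fun B => (S' B).card) hTne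
      have hlt : (S' A).card ≤ S.card := by
        by_contra hcon
        push Not at hcon
        obtain ⟨B, hB, hB'⟩ := hbig A hA hcon.le
        exact absurd (hAmax B hB) (not_le.mpr hB')
      refine ⟨S, hS1, ?_, T, Finset.Subset.refl _, fun f hf g hg => hR f (hS1 hf) g (hS1 hg), hS2⟩
      calc R.card ≤ S.card + k * k * ∑ B ∈ T, (H B).card := hS4
        _ ≤ S.card + k * k * ∑ B ∈ T, Kc k p * S.card := by
            gcongr with B hB
            exact ((hS' B hB).2.1).trans (Nat.mul_le_mul_left _ ((hAmax B hB).trans hlt))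
        _ = Kc k (p+1) * S.card := by
            rw [Finset.sum_const, hT, smul_eq_mul, Kc]; ring

/-- the set of patterns is closed under intersection -/
def IC (T : Finset (Finset (Fin k))) : Prop := ∀ A ∈ T, ∀ B ∈ T, A ∩ B ∈ T

/-- Furedi type theorem: a positive proportion has intersection closed patterns -/
theorem furedi (T : Finset (Finset (Fin k))) (hu : Finset.univ ∉ T)
    (R : Finset (Fin k → V)) (hR : PatIn R T) :
    ∃ S ⊆ R, R.card ≤ Kc k T.card * S.card ∧ ∃ T' ⊆ T, IC T' ∧ PatIn S T' := by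
  classical
  obtain ⟨S, hS1, hS2, T', hT', hP, hrich⟩ := clean T.card T rfl hu R hR
  -- the occurring patterns
  set P : Finset (Finset (Fin k)) := ((S ×ˢ S).filter fun p => p.1 ≠ p.2).image
    (fun p => agr p.1 p.2) with hPdef
  have hmemP : ∀ A, A ∈ P ↔ ∃ f ∈ S, ∃ g ∈ S, f ≠ g ∧ agr f g = A := by
    intro A
    rw [hPdef, Finset.mem_image]
    constructor
    · rintro ⟨⟨f, g⟩, h1, h2⟩
      rw [Finset.mem_filter, Finset.mem_product] at h1
      exact ⟨f, h1.1.1, g, h1.1.2, h1.2, h2⟩
    · rintro ⟨f, hf, g, hg, hfg, h⟩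
      exact ⟨(f, g), by rw [Finset.mem_filter, Finset.mem_product]; exact ⟨⟨hf, hg⟩, hfg⟩, h⟩
  have hPT : ∀ A ∈ P, A ∈ T' := by
    intro A hA
    obtain ⟨f, hf, g, hg, hfg, h⟩ := (hmemP A).mp hA
    rw [← h]; exact hP f hf g hg hfg
  refine ⟨S, hS1, hS2, P, fun A hA => hT' (hPT A hA), ?_, ?_⟩
  · intro A hA B hB
    obtain ⟨f, hf, g0, hg0, hfg, h0⟩ := (hmemP A).mp hA
    obtain ⟨g, hg, h, hh, hgh⟩ := inter_of_rich (hrich A (hPT A hA) f hf) (hrich B (hPT B hB) f hf)
    rw [hmemP]
    refine ⟨g, hg, h, hh, ?_, hgh⟩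
    intro heq
    subst heq
    have h1 : (Finset.univ : Finset (Fin k)) ⊆ A := by
      have h2 : agr g g = Finset.univ := by ext i; simp [mem_agr]
      rw [h2] at hgh
      rw [hgh]
      exact Finset.inter_subset_left
    have h3 : A = Finset.univ := Finset.univ_subset_iff.mp h1
    exact hu (h3 ▸ hT' (hPT A hA))
  · intro f hf g hg hfg
    exact (hmemP _).mpr ⟨f, hf, g, hg, hfg, rfl⟩

end Pool.Agent.H480R2.LS
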