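import Pool.Agent.H480R2.LS.Fam

/-!
The growth exponent of `(n,k,L)`-systems.
-/

set_option autoImplicit false

open Finset

namespace Pool.Agent.H480R2.LS

/-- reduction of the alphabet by a factor `q` -/
theorem shrink {k M q n : ℕ} (hn : 1 ≤ n) (hM : M ≤ q * n) (R : Finset (Fin k → Fin M))
    (T : Finset (Finset (Fin k))) (hR : PatIn R T) :
    ∃ R' : Finset (Fin k → Fin n), PatIn R' T ∧ R.card ≤ q ^ k * R'.card := by
  classical
  have hq : ∀ x : Fin M, (x : ℕ) / n < q := by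
    intro x
    rw [Nat.div_lt_iff_lt_mul (by omega)]
    exact lt_of_lt_of_le x.isLt hM
  set blk : Fin M → Fin q := fun x => ⟨(x : ℕ) / n, hq x⟩ with hblk
  set rem : Fin M → Fin n := fun x => ⟨(x : ℕ) % n, Nat.mod_lt _ (by omega)⟩ with hrem
  have hinj : ∀ x y : Fin M, blk x = blk y → rem x = rem y → x = y := by
    intro x y h1 h2
    have h1' : (x : ℕ) / n = (y : ℕ) / n := congrArg Fin.val h1
    have h2' : (x : ℕ) % n = (y : ℕ) % n := congrArg Fin.val h2
    apply Fin.ext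
    rw [← Nat.div_add_mod (x : ℕ) n, ← Nat.div_add_mod (y : ℕ) n, h1', h2']
  by_cases hRe : R = ∅
  · exact ⟨∅, by intro f hf; simp at hf, by simp [hRe]⟩
  obtain ⟨f0, hf0⟩ := Finset.nonempty_iff_ne_empty.mpr hRe
  obtain ⟨τ, hτ⟩ : ∃ τ : Fin k → Fin q, R.card ≤ q ^ k * (R.filter fun f => (fun i => blk (f i)) = τ).card := by
    by_contra hcon
    push Not at hcon
    have hsum : ∑ τ : Fin k → Fin q, (R.filter fun f => (fun i => blk (f i)) = τ).card = R.card :=
      (Finset.card_eq_sum_card_fiberwise (f := fun f : Fin k → Fin M => fun i => blk (f i))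
        (t := Finset.univ) (fun f _ => Finset.mem_univ _)).symm
    have hpos : (Finset.univ : Finset (Fin k → Fin q)).Nonempty := ⟨fun i => blk (f0 i), Finset.mem_univ _⟩
    have h1 : ∑ τ : Fin k → Fin q, q ^ k * (R.filter fun f => (fun i => blk (f i)) = τ).card
        < ∑ τ : Fin k → Fin q, R.card := Finset.sum_lt_sum_of_nonempty hpos (fun c _ => hcon c)
    rw [← Finset.mul_sum, hsum, Finset.sum_const, Finset.card_univ, Fintype.card_fun,
      Fintype.card_fin, Fintype.card_fin, smul_eq_mul] at h1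
    exact lt_irrefl _ h1
  set G := R.filter fun f => (fun i => blk (f i)) = τ with hG
  set ψ : (Fin k → Fin M) → (Fin k → Fin n) := fun f i => rem (f i) with hψ
  have hblkG : ∀ f ∈ G, ∀ g ∈ G, ∀ i, blk (f i) = blk (g i) := by
    intro f hf g hg i
    have h1 := (Finset.mem_filter.mp hf).2
    have h2 := (Finset.mem_filter.mp hg).2
    have := congrFun (h1.trans h2.symm) i
    exact this
  have hagr : ∀ f ∈ G, ∀ g ∈ G, agr (ψ f) (ψ g) = agr f g := by
    intro f hf g hg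
    ext i
    rw [mem_agr, mem_agr]
    exact ⟨fun h => hinj _ _ (hblkG f hf g hg i) h, fun h => by rw [hψ]; simp only [h]⟩
  have hinjψ : Set.InjOn ψ (G : Set (Fin k → Fin M)) := by
    intro f hf g hg hfg
    funext i
    exact hinj _ _ (hblkG f hf g hg i) (congrFun hfg i)
  refine ⟨G.image ψ, ?_, ?_⟩
  · intro f hf g hg hfg
    rw [Finset.mem_image] at hf hg
    obtain ⟨f', hf', rfl⟩ := hf
    obtain ⟨g', hg', rfl⟩ := hg
    rw [hagr f' hf' g' hg']
    exact hR f' (Finset.mem_filter.mp hf').1 g' (Finset.mem_filter.mp hg').1 (fun h => hfg (by rw [h]))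
  · rw [Finset.card_image_of_injOn hinjψ]
    exact hτ

/-- the maximal size of an `(n,k,L)`-system -/
noncomputable def mm (n k : ℕ) (L : Finset ℕ) : ℕ :=
  sSup {s : ℕ | ∃ F : Finset (Finset (Fin n)), F.card = s ∧
      (∀ A ∈ F, A.card = k) ∧
      ∀ A ∈ F, ∀ B ∈ F, A ≠ B → (A ∩ B).card ∈ L}

theorem mm_bdd (n k : ℕ) (L : Finset ℕ) : BddAbove {s : ℕ | ∃ F : Finset (Finset (Fin n)), F.card = s ∧
      (∀ A ∈ F, A.card = k) ∧
      ∀ A ∈ F, ∀ B ∈ F, A ≠ B → (A ∩ B).card ∈ L} := by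
  refine ⟨Fintype.card (Finset (Fin n)), ?_⟩
  rintro s ⟨F, hF, _⟩
  rw [← hF]
  exact Finset.card_le_univ F

theorem mm_attained (n k : ℕ) (L : Finset ℕ) : ∃ F : Finset (Finset (Fin n)), F.card = mm n k L ∧ Sys n k L F := by
  have h := Nat.sSup_mem (s := {s : ℕ | ∃ F : Finset (Finset (Fin n)), F.card = s ∧
      (∀ A ∈ F, A.card = k) ∧
      ∀ A ∈ F, ∀ B ∈ F, A ≠ B → (A ∩ B).card ∈ L}) ⟨0, ∅, by simp⟩ (mm_bdd n k L)
  obtain ⟨F, h1, h2, h3⟩ := h
  exact ⟨F, h1, h2, h3⟩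

theorem le_mm {n k : ℕ} {L : Finset ℕ} {F : Finset (Finset (Fin n))} (hF : Sys n k L F) :
    F.card ≤ mm n k L :=
  le_csSup (mm_bdd n k L) ⟨F, rfl, hF.1, hF.2⟩

theorem embed_mm {k N n : ℕ} {L : Finset ℕ} (hN : k * n ≤ N) (R : Finset (Fin k → Fin n))
    (T : Finset (Finset (Fin k))) (hT : ∀ A ∈ T, A.card ∈ L) (hR : PatIn R T) :
    R.card ≤ mm N k L := by
  obtain ⟨F, hF, hc⟩ := embed (W := Fin n) (N := N) (L := L) (by simpa using hN) R T hT hR
  rw [← hc]
  exact le_mm hF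

/-- the constant -/
def KK (k : ℕ) (L : Finset ℕ) : ℕ := k ^ k * Kc k (TL k L).card

/-- the reduction to intersection closed relations -/
theorem mm_red {n k : ℕ} {L : Finset ℕ} (hk : 1 ≤ k) (hL : L ⊆ Finset.range k) :
    ∃ (R : Finset (Fin k → Fin n)) (T : Finset (Finset (Fin k))), IC T ∧ (∀ A ∈ T, A.card ∈ L) ∧
      PatIn R T ∧ mm n k L ≤ KK k L * R.card := by
  obtain ⟨F, hF1, hF2⟩ := mm_attained n k L
  obtain ⟨R, hR1, hR2⟩ := rainbow hk hF2
  obtain ⟨S, hS1, hS2, T, hT1, hT2, hT3⟩ := furedi (TL k L) (univ_notMem_TL hL) R hR1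
  refine ⟨S, T, hT2, fun A hA => (Finset.mem_filter.mp (hT1 hA)).2, hT3, ?_⟩
  rw [← hF1]
  calc F.card ≤ k ^ k * R.card := hR2
    _ ≤ k ^ k * (Kc k (TL k L).card * S.card) := Nat.mul_le_mul_left _ hS2
    _ = KK k L * S.card := by rw [KK]; ring

/-- doubling -/
theorem mm_double {n k : ℕ} {L : Finset ℕ} (hk : 1 ≤ k) (hL : L ⊆ Finset.range k) (hn : k ≤ n) :
    mm (2 * n) k L ≤ KK k L * (4 * k) ^ k * mm n k L := by
  obtain ⟨R, T, _, hT2, hT3, hT4⟩ := mm_red (n := 2 * n) hk hL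
  have hd : 1 ≤ n / k := (Nat.one_le_div_iff (by omega)).mpr hn
  have hM : 2 * n ≤ (4 * k) * (n / k) := by
    have h1 : n < k * (n / k) + k := by
      have := Nat.lt_mul_div_succ n (show 0 < k by omega)
      rw [Nat.mul_add] at this
      omega
    have h2 : k ≤ k * (n / k) := Nat.le_mul_of_pos_right _ (by omega)
    have h3 : (4 * k) * (n / k) = 4 * (k * (n / k)) := by ring
    rw [h3]
    omega
  obtain ⟨R', hR1, hR2⟩ := shrink hd hM R T hT3
  have h5 : R'.card ≤ mm n k L := embed_mm (Nat.mul_div_le n k) R' T hT2 hR1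
  calc mm (2 * n) k L ≤ KK k L * R.card := hT4
    _ ≤ KK k L * ((4 * k) ^ k * R'.card) := Nat.mul_le_mul_left _ hR2
    _ ≤ KK k L * ((4 * k) ^ k * mm n k L) := by gcongr
    _ = KK k L * (4 * k) ^ k * mm n k L := by ring

/-- the set whose supremum is the exponent -/
def ES (k : ℕ) (L : Finset ℕ) : Set ℝ :=
  {x | ∃ (n : ℕ) (R : Finset (Fin k → Fin n)) (T : Finset (Finset (Fin k))), 2 ≤ n ∧ IC T ∧
    (∀ A ∈ T, A.card ∈ L) ∧ PatIn R T ∧ 1 ≤ R.card ∧ x = Real.log R.card / Real.log n}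

theorem card_rel_le {k n : ℕ} (R : Finset (Fin k → Fin n)) : R.card ≤ n ^ k := by
  have h := Finset.card_le_univ R
  simpa using h

theorem ES_bdd (k : ℕ) (L : Finset ℕ) : BddAbove (ES k L) := by
  refine ⟨k, ?_⟩
  rintro x ⟨n, R, T, hn, _, _, _, hR, rfl⟩
  have hlog : 0 < Real.log n := Real.log_pos (by exact_mod_cast (show 1 < n by omega))
  rw [div_le_iff₀ hlog, ← Real.log_pow]
  apply Real.log_le_log (by exact_mod_cast (show 0 < R.card by omega))
  exact_mod_cast card_rel_le R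

theorem one_mem_ES {k : ℕ} {L : Finset ℕ} (hne : L.Nonempty) (hL : L ⊆ Finset.range k) : (1:ℝ) ∈ ES k L := by
  classical
  obtain ⟨l, hl⟩ := hne
  have hlk : l < k := Finset.mem_range.mp (hL hl)
  set A : Finset (Fin k) := Finset.univ.filter fun i => (i : ℕ) < l with hA
  have hAcard : A.card = l := by
    have h1 : A = Finset.Iio (⟨l, hlk⟩ : Fin k) := by
      ext i; rw [hA]; simp [Fin.lt_def]
    rw [h1, Fin.card_Iio]
  set f : Fin 2 → (Fin k → Fin 2) := fun j i => if (i : ℕ) < l then 0 else j with hf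
  have hfinj : Function.Injective f := by
    intro j j' h
    have := congrFun h ⟨l, hlk⟩
    simpa [hf] using this
  refine ⟨2, Finset.univ.image f, {A}, le_rfl, ?_, ?_, ?_, ?_, ?_⟩
  · intro B hB C hC
    rw [Finset.mem_singleton] at hB hC ⊢
    rw [hB, hC, Finset.inter_self]
  · intro B hB
    rw [Finset.mem_singleton] at hB
    rw [hB, hAcard]
    exact hl
  · intro g hg h hh hgh
    rw [Finset.mem_image] at hg hh
    obtain ⟨j, _, rfl⟩ := hg
    obtain ⟨j', _, rfl⟩ := hh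
    have hj : j ≠ j' := fun h => hgh (by rw [h])
    rw [Finset.mem_singleton]
    ext i
    rw [mem_agr, hA, Finset.mem_filter]
    by_cases hi : (i : ℕ) < l
    · simp [hf, hi]
    · simp [hf, hi, hj]
  · rw [Finset.card_image_of_injective _ hfinj]
    simp
  · rw [Finset.card_image_of_injective _ hfinj]
    have : Real.log 2 ≠ 0 := (Real.log_pos (by norm_num)).ne'
    simp [this]

/-- the exponent -/
noncomputable def expo (k : ℕ) (L : Finset ℕ) : ℝ := sSup (ES k L)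

theorem one_le_expo {k : ℕ} {L : Finset ℕ} (hne : L.Nonempty) (hL : L ⊆ Finset.range k) :
    1 ≤ expo k L := le_csSup (ES_bdd k L) (one_mem_ES hne hL)

theorem rel_le {k n : ℕ} {L : Finset ℕ} (hn : 1 ≤ n) (R : Finset (Fin k → Fin n))
    (T : Finset (Finset (Fin k))) (hIC : IC T) (hT : ∀ A ∈ T, A.card ∈ L) (hR : PatIn R T) :
    (R.card : ℝ) ≤ (n:ℝ) ^ expo k L := by
  by_cases h0 : R.card = 0
  · rw [h0]; simp; positivity
  by_cases h1 : n = 1
  · subst h1
    have := card_rel_le R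
    rw [one_pow] at this
    simp only [Nat.cast_one, Real.one_rpow]
    exact_mod_cast this
  have hn2 : 2 ≤ n := by omega
  have hlog : 0 < Real.log n := Real.log_pos (by exact_mod_cast (show 1 < n by omega))
  have hRpos : (0:ℝ) < R.card := by exact_mod_cast (show 0 < R.card by omega)
  have hx : Real.log R.card / Real.log n ≤ expo k L :=
    le_csSup (ES_bdd k L) ⟨n, R, T, hn2, hIC, hT, hR, by omega, rfl⟩
  rw [div_le_iff₀ hlog] at hx
  have hnpos : (0:ℝ) < n := by exact_mod_cast (show 0 < n by omega)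
  rw [← Real.exp_log hRpos, Real.rpow_def_of_pos hnpos]
  apply Real.exp_le_exp.mpr
  linarith

theorem mm_le {n k : ℕ} {L : Finset ℕ} (hk : 1 ≤ k) (hL : L ⊆ Finset.range k) (hn : 1 ≤ n) :
    (mm n k L : ℝ) ≤ KK k L * (n:ℝ) ^ expo k L := by
  obtain ⟨R, T, h1, h2, h3, h4⟩ := mm_red (n := n) hk hL
  have h5 := rel_le hn R T h1 h2 h3
  calc (mm n k L : ℝ) ≤ ((KK k L * R.card : ℕ) : ℝ) := by exact_mod_cast h4
    _ = KK k L * R.card := by push_cast; ring
    _ ≤ KK k L * (n:ℝ) ^ expo k L := by gcongr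

theorem le_mm_of_mem {k : ℕ} {L : Finset ℕ} (hk : 1 ≤ k) {x : ℝ} (hx : x ∈ ES k L)
    {β : ℝ} (hβx : β ≤ x) :
    ∃ c : ℝ, 0 < c ∧ ∀ n : ℕ, k ≤ n → c * (n:ℝ) ^ β ≤ mm n k L := by
  obtain ⟨n0, R, T, hn0, hIC, hT, hR, hRc, rfl⟩ := hx
  set x : ℝ := Real.log R.card / Real.log n0 with hxdef
  have hlog : 0 < Real.log n0 := Real.log_pos (by exact_mod_cast (show 1 < n0 by omega))
  have hRpos : (0:ℝ) < R.card := by exact_mod_cast (show 0 < R.card by omega)
  have hn0pos : (0:ℝ) < n0 := by exact_mod_cast (show 0 < n0 by omega)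
  have hkpos : (0:ℝ) < k := by exact_mod_cast (show 0 < k by omega)
  have hRx : (R.card : ℝ) = (n0:ℝ) ^ x := by
    rw [Real.rpow_def_of_pos hn0pos, hxdef, mul_div_cancel₀ _ hlog.ne', Real.exp_log hRpos]
  -- lower bound at `N`
  have hlow : ∀ N : ℕ, k ≤ N → ((R.card : ℝ)) ^ (Nat.log n0 (N / k)) ≤ mm N k L := by
    intro N hN
    have hd : 1 ≤ N / k := (Nat.one_le_div_iff (by omega)).mpr hN
    obtain ⟨R', hR'1, hR'2⟩ := power (Nat.log n0 (N / k)) R T hIC hR
    have h1 : k * Fintype.card (Fin (Nat.log n0 (N / k)) → Fin n0) ≤ N := by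
      rw [Fintype.card_fun, Fintype.card_fin, Fintype.card_fin]
      calc k * n0 ^ Nat.log n0 (N / k) ≤ k * (N / k) :=
            Nat.mul_le_mul_left _ (Nat.pow_log_le_self n0 (by omega))
        _ ≤ N := Nat.mul_div_le N k
    obtain ⟨F, hF, hFc⟩ := embed h1 R' T hT hR'2
    have h2 := le_mm hF
    rw [hFc, hR'1] at h2
    exact_mod_cast h2
  by_cases hβ0 : β ≤ 0
  · refine ⟨1, one_pos, fun N hN => ?_⟩
    have h1 : (N:ℝ) ^ β ≤ 1 := Real.rpow_le_one_of_one_le_of_nonpos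
      (by exact_mod_cast (show 1 ≤ N by omega)) hβ0
    have h2 : (1:ℝ) ≤ (R.card : ℝ) ^ (Nat.log n0 (N / k)) := one_le_pow₀ (by exact_mod_cast hRc)
    linarith [hlow N hN]
  · push Not at hβ0
    refine ⟨((k:ℝ) * n0) ^ (-β), by positivity, fun N hN => ?_⟩
    set t := Nat.log n0 (N / k) with ht
    have hNlt : (N:ℝ) ≤ (k * n0) * (n0:ℝ) ^ t := by
      have h1 : N / k < n0 ^ (t + 1) := Nat.lt_pow_succ_log_self (by omega) _
      have h2 : N < k * n0 ^ (t + 1) := by
        rw [Nat.div_lt_iff_lt_mul (by omega)] at h1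
        rw [mul_comm]; exact h1
      have h3 : (N:ℝ) < k * (n0:ℝ) ^ (t + 1) := by exact_mod_cast h2
      rw [pow_succ] at h3
      nlinarith
    have h4 : (N:ℝ) ^ β ≤ ((k:ℝ) * n0) ^ β * ((n0:ℝ) ^ t) ^ β := by
      rw [← Real.mul_rpow (by positivity) (by positivity)]
      exact Real.rpow_le_rpow (by positivity) hNlt hβ0.le
    have h5 : ((n0:ℝ) ^ t) ^ β ≤ (R.card : ℝ) ^ t := by
      rw [hRx, ← Real.rpow_natCast, ← Real.rpow_natCast, ← Real.rpow_mul hn0pos.le,
        ← Real.rpow_mul hn0pos.le]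
      apply Real.rpow_le_rpow_of_exponent_le (by exact_mod_cast (show 1 ≤ n0 by omega))
      rw [mul_comm]
      exact mul_le_mul_of_nonneg_right hβx (by positivity)
    calc ((k:ℝ) * n0) ^ (-β) * (N:ℝ) ^ β
        ≤ ((k:ℝ) * n0) ^ (-β) * (((k:ℝ) * n0) ^ β * ((n0:ℝ) ^ t) ^ β) := by gcongr
      _ = ((n0:ℝ) ^ t) ^ β := by
          rw [← mul_assoc, ← Real.rpow_add (by positivity)]
          simp
      _ ≤ (R.card : ℝ) ^ t := h5
      _ ≤ mm N k L := hlow N hN

theorem le_mm_eps {k : ℕ} {L : Finset ℕ} (hk : 1 ≤ k) (hne : L.Nonempty)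
    (hL : L ⊆ Finset.range k) {β : ℝ} (hβ : β < expo k L) :
    ∃ c : ℝ, 0 < c ∧ ∀ n : ℕ, k ≤ n → c * (n:ℝ) ^ β ≤ mm n k L := by
  obtain ⟨x, hx, hβx⟩ := exists_lt_of_lt_csSup ⟨1, one_mem_ES hne hL⟩ hβ
  exact le_mm_of_mem hk hx hβx.le

theorem tendsto_expo {k : ℕ} {L : Finset ℕ} (hk : 1 ≤ k) (hne : L.Nonempty)
    (hL : L ⊆ Finset.range k) :
    Filter.Tendsto (fun n : ℕ => Real.log (mm n k L) / Real.log n) Filter.atTop (nhds (expo k L)) := by
  have hlogn : Filter.Tendsto (fun n : ℕ => Real.log (n:ℝ)) Filter.atTop Filter.atTop :=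
    Real.tendsto_log_atTop.comp tendsto_natCast_atTop_atTop
  rw [tendsto_order]
  constructor
  · intro a ha
    obtain ⟨β, hβ1, hβ2⟩ := exists_between ha
    obtain ⟨c, hc, h⟩ := le_mm_eps hk hne hL hβ2
    have h1 : ∀ᶠ n : ℕ in Filter.atTop, -Real.log c / (β - a) + 1 < Real.log (n:ℝ) :=
      hlogn.eventually_gt_atTop _
    filter_upwards [h1, Filter.eventually_ge_atTop k, Filter.eventually_ge_atTop 2,
      hlogn.eventually_gt_atTop 0] with n hn1 hn2 hn3 hn4
    have hnpos : (0:ℝ) < n := by exact_mod_cast (show 0 < n by omega)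
    rw [lt_div_iff₀ hn4]
    have h2 := h n hn2
    have h3 : 0 < c * (n:ℝ) ^ β := by positivity
    have h4 := Real.log_le_log h3 h2
    rw [Real.log_mul hc.ne' (by positivity), Real.log_rpow hnpos] at h4
    have h5 : 0 < β - a := by linarith
    have h6 : -Real.log c / (β - a) < Real.log n := by linarith
    rw [div_lt_iff₀ h5] at h6
    nlinarith
  · intro b hb
    have hK : (1:ℝ) ≤ KK k L := by
      have : 1 ≤ KK k L := by
        rw [KK]
        exact Nat.mul_pos (Nat.pow_pos (by omega)) (Kc_pos k _)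
      exact_mod_cast this
    have h1 : ∀ᶠ n : ℕ in Filter.atTop, Real.log (KK k L) / (b - expo k L) < Real.log (n:ℝ) :=
      hlogn.eventually_gt_atTop _
    obtain ⟨c, hc, h⟩ := le_mm_eps hk hne hL (β := 0) (lt_of_lt_of_le one_pos (one_le_expo hne hL))
    filter_upwards [h1, Filter.eventually_ge_atTop k, Filter.eventually_ge_atTop 2,
      hlogn.eventually_gt_atTop 0] with n hn1 hn2 hn3 hn4
    have hnpos : (0:ℝ) < n := by exact_mod_cast (show 0 < n by omega)
    rw [div_lt_iff₀ hn4]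
    have h2 := mm_le (n := n) hk hL (by omega)
    have h3 : (0:ℝ) < mm n k L := by
      have h0 := h n hn2
      rw [Real.rpow_zero, mul_one] at h0
      linarith
    have h4 := Real.log_le_log h3 h2
    rw [Real.log_mul (by positivity) (by positivity), Real.log_rpow hnpos] at h4
    have h5 : 0 < b - expo k L := by linarith
    rw [div_lt_iff₀ h5] at hn1
    nlinarith

end Pool.Agent.H480R2.LS
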