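import Pool.Agent.H480R2.LS.Clean

/-!
From families of `k`-sets to relations (rainbow subfamily) and back, powers of relations.
-/

set_option autoImplicit false

open Finset

namespace Pool.Agent.H480R2.LS

/-- `(n,k,L)`-systems -/
def Sys (n k : ℕ) (L : Finset ℕ) (F : Finset (Finset (Fin n))) : Prop :=
  (∀ A ∈ F, A.card = k) ∧ ∀ A ∈ F, ∀ B ∈ F, A ≠ B → (A ∩ B).card ∈ L

/-- all types with cardinality in `L` -/
def TL (k : ℕ) (L : Finset ℕ) : Finset (Finset (Fin k)) :=
  Finset.univ.filter fun A => A.card ∈ L

theorem univ_notMem_TL {k : ℕ} {L : Finset ℕ} (hL : L ⊆ Finset.range k) : Finset.univ ∉ TL k L := by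
  intro h
  rw [TL, Finset.mem_filter] at h
  have := hL h.2
  simp at this

theorem rainbow {n k : ℕ} {L : Finset ℕ} (hk : 1 ≤ k) {F : Finset (Finset (Fin n))} (hF : Sys n k L F) :
    ∃ R : Finset (Fin k → Fin n), PatIn R (TL k L) ∧ F.card ≤ k ^ k * R.card := by
  classical
  by_cases hFe : F = ∅
  · exact ⟨∅, by intro f hf; simp at hf, by simp [hFe]⟩
  have hne : F.Nonempty := Finset.nonempty_iff_ne_empty.mpr hFe
  have hex : ∀ A ∈ F, ∃ b : Fin k → Fin n, Function.Injective b ∧ Finset.univ.image b = A := by
    intro A hA
    refine ⟨A.orderEmbOfFin (hF.1 A hA), (A.orderEmbOfFin (hF.1 A hA)).injective, ?_⟩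
    ext x
    have := A.range_orderEmbOfFin (hF.1 A hA)
    have hx : x ∈ Set.range (A.orderEmbOfFin (hF.1 A hA)) ↔ x ∈ A := by rw [this]; simp
    rw [← hx]
    simp
  obtain ⟨A0, hA0⟩ := hne
  have hnk : k ≤ n := by
    have h1 := Finset.card_le_univ A0
    rw [hF.1 A0 hA0] at h1
    simpa using h1
  obtain ⟨b0, _⟩ := hex A0 hA0
  have : Nonempty (Fin k → Fin n) := ⟨b0⟩
  choose! b hb using hex
  -- compatible colourings
  set C : Finset (Fin n) → Finset (Fin n → Fin k) := fun A =>
    Finset.univ.filter fun c => ∀ i, c (b A i) = i with hC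
  have hCcard : ∀ A ∈ F, k ^ (n - k) ≤ (C A).card := by
    intro A hA
    have hsub : Fintype.piFinset (fun x : Fin n =>
        if h : ∃ i, b A i = x then ({h.choose} : Finset (Fin k)) else Finset.univ) ⊆ C A := by
      intro c hc
      rw [Fintype.mem_piFinset] at hc
      rw [hC, Finset.mem_filter]
      refine ⟨Finset.mem_univ _, fun i => ?_⟩
      have h1 := hc (b A i)
      have hex' : ∃ j, b A j = b A i := ⟨i, rfl⟩
      rw [dif_pos hex', Finset.mem_singleton] at h1
      rw [h1]
      exact (hb A hA).1 hex'.choose_spec
    refine le_trans (le_of_eq ?_) (Finset.card_le_card hsub)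
    rw [Fintype.card_piFinset]
    have hterm : ∀ x : Fin n, (if h : ∃ i, b A i = x then ({h.choose} : Finset (Fin k)) else Finset.univ).card
        = if x ∈ A then 1 else k := by
      intro x
      by_cases h : ∃ i, b A i = x
      · have hxA : x ∈ A := by
          obtain ⟨i, hi⟩ := h
          rw [← (hb A hA).2, Finset.mem_image]
          exact ⟨i, Finset.mem_univ _, hi⟩
        rw [dif_pos h, if_pos hxA, Finset.card_singleton]
      · have hxA : x ∉ A := by
          intro hx
          rw [← (hb A hA).2, Finset.mem_image] at hx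
          obtain ⟨i, _, hi⟩ := hx
          exact h ⟨i, hi⟩
        rw [dif_neg h, if_neg hxA, Finset.card_univ, Fintype.card_fin]
    rw [Finset.prod_congr rfl (fun x _ => hterm x), Finset.prod_ite, Finset.prod_const_one, one_mul,
      Finset.prod_const]
    congr 1
    have h2 : (Finset.univ.filter fun x => x ∉ A) = Aᶜ := by ext x; simp
    rw [h2, Finset.card_compl, hF.1 A hA, Fintype.card_fin]
  -- double counting
  obtain ⟨c, hc⟩ : ∃ c : Fin n → Fin k, F.card ≤ k ^ k * (F.filter fun A => c ∈ C A).card := by
    by_contra hcon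
    push Not at hcon
    have hcount : ∑ c : Fin n → Fin k, (F.filter fun A => c ∈ C A).card = ∑ A ∈ F, (C A).card := by
      simp_rw [Finset.card_filter]
      rw [Finset.sum_comm]
      apply Finset.sum_congr rfl
      intro A _
      rw [← Finset.card_filter]
      congr 1
      ext c
      simp
    have hpos : (Finset.univ : Finset (Fin n → Fin k)).Nonempty := by
      have : Nonempty (Fin k) := ⟨⟨0, hk⟩⟩
      exact Finset.univ_nonempty
    have h1 : ∑ c : Fin n → Fin k, k ^ k * (F.filter fun A => c ∈ C A).card
        < ∑ c : Fin n → Fin k, F.card := Finset.sum_lt_sum_of_nonempty hpos (fun c _ => hcon c)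
    rw [← Finset.mul_sum, hcount, Finset.sum_const, Finset.card_univ, Fintype.card_fun,
      Fintype.card_fin, Fintype.card_fin, smul_eq_mul] at h1
    have h2 : F.card * k ^ (n - k) ≤ ∑ A ∈ F, (C A).card := by
      rw [← smul_eq_mul, ← Finset.sum_const]
      exact Finset.sum_le_sum hCcard
    have h3 : k ^ n = k ^ k * k ^ (n - k) := by rw [← pow_add]; congr 1; omega
    have h4 : k ^ k * (F.card * k ^ (n - k)) ≤ k ^ k * ∑ A ∈ F, (C A).card := Nat.mul_le_mul_left _ h2
    have h5 : k ^ k * (F.card * k ^ (n - k)) = k ^ n * F.card := by rw [h3]; ring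
    omega
  set G := F.filter fun A => c ∈ C A with hG
  have hGF : ∀ A ∈ G, A ∈ F := fun A hA => (Finset.mem_filter.mp hA).1
  have hGc : ∀ A ∈ G, ∀ i, c (b A i) = i := fun A hA => by
    have h1 := (Finset.mem_filter.mp hA).2
    rw [hC, Finset.mem_filter] at h1
    exact h1.2
  have hinj : Set.InjOn b (G : Set (Finset (Fin n))) := by
    intro A hA B hB hAB
    rw [← (hb A (hGF A hA)).2, ← (hb B (hGF B hB)).2, hAB]
  refine ⟨G.image b, ?_, ?_⟩
  · intro f hf g hg hfg
    rw [Finset.mem_image] at hf hg
    obtain ⟨A, hA, rfl⟩ := hf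
    obtain ⟨B, hB, rfl⟩ := hg
    have hAB : A ≠ B := fun h => hfg (by rw [h])
    rw [TL, Finset.mem_filter]
    refine ⟨Finset.mem_univ _, ?_⟩
    have h1 := hF.2 A (hGF A hA) B (hGF B hB) hAB
    have h2 : A ∩ B = (agr (b A) (b B)).image (b A) := by
      ext x
      rw [Finset.mem_inter, Finset.mem_image]
      constructor
      · rintro ⟨hxA, hxB⟩
        rw [← (hb A (hGF A hA)).2, Finset.mem_image] at hxA
        rw [← (hb B (hGF B hB)).2, Finset.mem_image] at hxB
        obtain ⟨i, _, hi⟩ := hxA
        obtain ⟨j, _, hj⟩ := hxB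
        have hij : i = j := by rw [← hGc A hA i, ← hGc B hB j, hi, hj]
        subst hij
        exact ⟨i, mem_agr.mpr (hi.trans hj.symm), hi⟩
      · rintro ⟨i, hi, hix⟩
        rw [mem_agr] at hi
        constructor
        · rw [← (hb A (hGF A hA)).2, Finset.mem_image]
          exact ⟨i, Finset.mem_univ _, hix⟩
        · rw [← (hb B (hGF B hB)).2, Finset.mem_image]
          exact ⟨i, Finset.mem_univ _, by rw [← hi, hix]⟩
    rw [h2, Finset.card_image_of_injective _ (hb A (hGF A hA)).1] at h1
    exact h1
  · rw [Finset.card_image_of_injOn hinj]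
    exact hc

theorem embed {k N : ℕ} {W : Type*} [Fintype W] [DecidableEq W] {L : Finset ℕ}
    (hN : k * Fintype.card W ≤ N) (R : Finset (Fin k → W)) (T : Finset (Finset (Fin k)))
    (hT : ∀ A ∈ T, A.card ∈ L) (hR : PatIn R T) :
    ∃ F : Finset (Finset (Fin N)), Sys N k L F ∧ F.card = R.card := by
  classical
  obtain ⟨e⟩ : Nonempty (Fin k × W ↪ Fin N) := by
    apply Function.Embedding.nonempty_of_card_le
    simpa using hN
  set E : (Fin k → W) → Finset (Fin N) := fun f => Finset.univ.image fun i => e (i, f i) with hE
  have hEinj : ∀ f : Fin k → W, Function.Injective fun i => e (i, f i) := by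
    intro f i j hij
    have := e.injective hij
    exact (Prod.ext_iff.mp this).1
  have hcard : ∀ f, (E f).card = k := by
    intro f
    rw [hE]
    simp only
    rw [Finset.card_image_of_injective _ (hEinj f)]
    simp
  have hinter : ∀ f g, E f ∩ E g = (agr f g).image fun i => e (i, f i) := by
    intro f g
    ext x
    rw [Finset.mem_inter, hE]
    simp only [Finset.mem_image, Finset.mem_univ, true_and]
    constructor
    · rintro ⟨⟨i, hi⟩, ⟨j, hj⟩⟩
      have h1 := e.injective (hi.trans hj.symm)
      have h2 := Prod.ext_iff.mp h1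
      simp only at h2
      refine ⟨i, ?_, hi⟩
      rw [mem_agr]
      rw [h2.2, ← h2.1]
    · rintro ⟨i, hi, hix⟩
      rw [mem_agr] at hi
      exact ⟨⟨i, hix⟩, ⟨i, by rw [← hi, hix]⟩⟩
  have hinjE : Set.InjOn E (R : Set (Fin k → W)) := by
    intro f hf g hg hfg
    by_contra hne
    have h1 : E f ∩ E g = E f := by rw [hfg]; simp
    have h2 : (agr f g).card = k := by
      have h3 := hcard f
      rw [← h1, hinter, Finset.card_image_of_injective _ (hEinj f)] at h3
      exact h3
    exact agr_ne_univ hne (Finset.eq_univ_of_card _ (by simpa using h2))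
  refine ⟨R.image E, ⟨?_, ?_⟩, Finset.card_image_of_injOn hinjE⟩
  · intro A hA
    rw [Finset.mem_image] at hA
    obtain ⟨f, _, rfl⟩ := hA
    exact hcard f
  · intro A hA B hB hAB
    rw [Finset.mem_image] at hA hB
    obtain ⟨f, hf, rfl⟩ := hA
    obtain ⟨g, hg, rfl⟩ := hB
    have hfg : f ≠ g := fun h => hAB (by rw [h])
    rw [hinter, Finset.card_image_of_injective _ (hEinj f)]
    exact hT _ (hR f hf g hg hfg)

theorem power {k : ℕ} {V : Type*} [DecidableEq V] (t : ℕ) (R : Finset (Fin k → V))
    (T : Finset (Finset (Fin k))) (hT : IC T) (hR : PatIn R T) :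
    ∃ R' : Finset (Fin k → (Fin t → V)), R'.card = R.card ^ t ∧ PatIn R' T := by
  classical
  set φ : (Fin t → (Fin k → V)) → (Fin k → (Fin t → V)) := fun r i s => r s i with hφ
  have hinj : Function.Injective φ := by
    intro r r' h
    funext s i
    exact congrFun (congrFun h i) s
  refine ⟨(Fintype.piFinset fun _ : Fin t => R).image φ, ?_, ?_⟩
  · rw [Finset.card_image_of_injective _ hinj, Fintype.card_piFinset_const]
  · intro f hf g hg hfg
    rw [Finset.mem_image] at hf hg
    obtain ⟨r, hr, rfl⟩ := hf
    obtain ⟨r', hr', rfl⟩ := hg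
    rw [Fintype.mem_piFinset] at hr hr'
    have key : ∀ S : Finset (Fin t), (∀ s ∈ S, r s = r' s) ∨
        (Finset.univ.filter fun i => ∀ s ∈ S, r s i = r' s i) ∈ T := by
      intro S
      induction S using Finset.induction_on with
      | empty => left; simp
      | insert s S hs ih =>
        by_cases hrs : r s = r' s
        · rcases ih with ih | ih
          · left
            intro u hu
            rw [Finset.mem_insert] at hu
            rcases hu with rfl | hu
            · exact hrs
            · exact ih u hu
          · right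
            convert ih using 1
            ext i
            simp only [Finset.mem_filter, Finset.mem_univ, true_and, Finset.mem_insert,
              forall_eq_or_imp]
            constructor
            · exact fun h => h.2
            · exact fun h => ⟨by rw [hrs], h⟩
        · right
          have h1 : agr (r s) (r' s) ∈ T := hR _ (hr s) _ (hr' s) hrs
          rcases ih with ih | ih
          · convert h1 using 1
            ext i
            simp only [Finset.mem_filter, Finset.mem_univ, true_and, Finset.mem_insert,
              forall_eq_or_imp, mem_agr]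
            constructor
            · exact fun h => h.1
            · exact fun h => ⟨h, fun u hu => by rw [ih u hu]⟩
          · have h2 := hT _ h1 _ ih
            convert h2 using 1
            ext i
            simp only [Finset.mem_filter, Finset.mem_univ, true_and, Finset.mem_insert,
              forall_eq_or_imp, mem_agr, Finset.mem_inter]
    have hne : ¬ ∀ s ∈ (Finset.univ : Finset (Fin t)), r s = r' s := by
      intro h
      apply hfg
      have : r = r' := funext fun s => h s (Finset.mem_univ _)
      rw [this]
    have h3 := (key Finset.univ).resolve_left hne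
    convert h3 using 1
    ext i
    simp only [Finset.mem_filter, Finset.mem_univ, true_and, mem_agr, hφ]
    constructor
    · intro h s _
      exact congrFun h s
    · intro h
      funext s
      exact h s trivial

end Pool.Agent.H480R2.LS
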