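import Pool.Agent.H480R2.LS.Expo

/-!
`(n,k,L)`-systems from finite abelian groups, and the ternary Golay code.
-/

set_option autoImplicit false

open Finset

namespace Pool.Agent.H480R2.LS

open Classical in
/-- common zero set of the elements of `S` -/
noncomputable def czero {G : Type*} [AddCommGroup G] {k n : ℕ} (φ : Fin k → G →+ ZMod n) (S : Finset G) :
    Finset (Fin k) := Finset.univ.filter fun i => ∀ X ∈ S, φ i X = 0

theorem mem_czero {G : Type*} [AddCommGroup G] {k n : ℕ} {φ : Fin k → G →+ ZMod n} {S : Finset G}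
    {i : Fin k} : i ∈ czero φ S ↔ ∀ X ∈ S, φ i X = 0 := by
  simp [czero]

theorem hom_mem {G : Type*} [AddCommGroup G] [Fintype G] {k n : ℕ} [NeZero n]
    (hn : 2 ≤ n) (φ : Fin k → G →+ ZMod n) {L : Finset ℕ} (hL : L ⊆ Finset.range k)
    (h : ∀ S : Finset G, S.Nonempty → (∀ X ∈ S, X ≠ 0) → (czero φ S).card ∈ L) :
    Real.log (Fintype.card G) / Real.log n ∈ ES k L := by
  classical
  set e : ZMod n ≃ Fin n := Fintype.equivFinOfCardEq (ZMod.card n) with he
  set f : G → (Fin k → Fin n) := fun X i => e (φ i X) with hf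
  have hagr : ∀ X Y : G, agr (f X) (f Y) = czero φ {X - Y} := by
    intro X Y
    ext i
    rw [mem_agr, mem_czero]
    simp only [hf, e.apply_eq_iff_eq, Finset.mem_singleton, forall_eq, map_sub, sub_eq_zero]
  have hne : ∀ X Y : G, X ≠ Y → (czero φ {X - Y}).card ∈ L := fun X Y hXY =>
    h _ (Finset.singleton_nonempty _) (fun Z hZ => by
      rw [Finset.mem_singleton] at hZ; rw [hZ]; exact sub_ne_zero.mpr hXY)
  have hinj : Function.Injective f := by
    intro X Y hXY
    by_contra hcon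
    have h1 := hne X Y hcon
    rw [← hagr, hXY] at h1
    have h2 : agr (f Y) (f Y) = Finset.univ := by
      ext i; simp [mem_agr]
    rw [h2, Finset.card_univ, Fintype.card_fin] at h1
    have := Finset.mem_range.mp (hL h1)
    omega
  refine ⟨n, Finset.univ.image f,
    Finset.univ.filter (fun A => ∃ S : Finset G, S.Nonempty ∧ (∀ X ∈ S, X ≠ 0) ∧ A = czero φ S),
    hn, ?_, ?_, ?_, ?_, ?_⟩
  · intro A hA B hB
    rw [Finset.mem_filter] at hA hB ⊢
    obtain ⟨S, hS1, hS2, rfl⟩ := hA.2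
    obtain ⟨S', hS'1, hS'2, rfl⟩ := hB.2
    refine ⟨Finset.mem_univ _, S ∪ S', hS1.mono Finset.subset_union_left, ?_, ?_⟩
    · intro X hX
      rcases Finset.mem_union.mp hX with hX | hX
      · exact hS2 X hX
      · exact hS'2 X hX
    · ext i
      simp only [mem_czero, Finset.mem_inter, Finset.mem_union]
      constructor
      · rintro ⟨h1, h2⟩ X (hX | hX)
        · exact h1 X hX
        · exact h2 X hX
      · intro h1
        exact ⟨fun X hX => h1 X (Or.inl hX), fun X hX => h1 X (Or.inr hX)⟩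
  · intro A hA
    obtain ⟨S, hS1, hS2, rfl⟩ := (Finset.mem_filter.mp hA).2
    exact h S hS1 hS2
  · intro a ha b hb hab
    obtain ⟨X, -, rfl⟩ := Finset.mem_image.mp ha
    obtain ⟨Y, -, rfl⟩ := Finset.mem_image.mp hb
    have hXY : X ≠ Y := fun h => hab (by rw [h])
    rw [Finset.mem_filter]
    refine ⟨Finset.mem_univ _, {X - Y}, Finset.singleton_nonempty _, ?_, hagr X Y⟩
    intro Z hZ
    rw [Finset.mem_singleton] at hZ
    rw [hZ]; exact sub_ne_zero.mpr hXY
  · rw [Finset.card_image_of_injective _ hinj, Finset.card_univ]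
    exact Fintype.card_pos
  · rw [Finset.card_image_of_injective _ hinj, Finset.card_univ]

/-- counting the zeros of `X`, `Y`, `X + Y`, `X - Y` for ternary functionals -/
theorem zero_count {G : Type*} [AddCommGroup G] {k : ℕ} (φ : Fin k → G →+ ZMod 3) (X Y : G) :
    (czero φ {X}).card + (czero φ {Y}).card + (czero φ {X + Y}).card + (czero φ {X - Y}).card
      = k + 3 * (czero φ {X} ∩ czero φ {Y}).card := by
  classical
  have hc : ∀ S : Finset (Fin k), S.card = ∑ i : Fin k, if i ∈ S then 1 else 0 := by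
    intro S
    rw [Finset.sum_ite_mem, Finset.univ_inter, Finset.card_eq_sum_ones]
  rw [hc, hc (czero φ {Y}), hc (czero φ {X + Y}), hc (czero φ {X - Y}),
    hc (czero φ {X} ∩ czero φ {Y}), ← Finset.sum_add_distrib, ← Finset.sum_add_distrib,
    ← Finset.sum_add_distrib, Finset.mul_sum]
  have hk : ∑ _i : Fin k, 1 = k := by simp
  refine Eq.trans ?_ (congrArg (· + ∑ i : Fin k, 3 * if i ∈ czero φ {X} ∩ czero φ {Y} then 1 else 0) hk)
  rw [← Finset.sum_add_distrib]
  apply Finset.sum_congr rfl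
  intro i _
  simp only [Finset.mem_inter, mem_czero, Finset.mem_singleton, forall_eq, map_add, map_sub]
  have hdec : ∀ a b : ZMod 3, ((((if a = 0 then 1 else 0) + if b = 0 then 1 else 0) +
      if a + b = 0 then 1 else 0) + if a - b = 0 then 1 else 0)
      = 1 + 3 * (if a = 0 ∧ b = 0 then 1 else 0) := by decide
  have h := hdec (φ i X) (φ i Y)
  convert h using 2

theorem three_weights {G : Type*} [AddCommGroup G] {k t u : ℕ} (φ : Fin k → G →+ ZMod 3)
    (h1 : ∀ X : G, X ≠ 0 → (czero φ {X}).card ≤ t ∨ (czero φ {X}).card = u)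
    (htu : t ≤ u) (hk : 4 * u ≤ k + 3 * t + 2) (S : Finset G) (hS : S.Nonempty)
    (hS0 : ∀ X ∈ S, X ≠ 0) : (czero φ S).card ≤ t ∨ (czero φ S).card = u := by
  classical
  obtain ⟨X, hX⟩ := hS
  by_cases hall : ∀ Y ∈ S, Y = X ∨ Y = -X
  · have h2 : czero φ S = czero φ {X} := by
      ext i
      simp only [mem_czero, Finset.mem_singleton, forall_eq]
      constructor
      · intro h; exact h X hX
      · intro h Y hY
        rcases hall Y hY with rfl | rfl
        · exact h
        · rw [map_neg, h, neg_zero]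
    rw [h2]; exact h1 X (hS0 X hX)
  · push Not at hall
    obtain ⟨Y, hY, hYX, hYX'⟩ := hall
    left
    have hsub : czero φ S ⊆ czero φ {X} ∩ czero φ {Y} := by
      intro i hi
      rw [mem_czero] at hi
      rw [Finset.mem_inter, mem_czero, mem_czero]
      simp only [Finset.mem_singleton, forall_eq]
      exact ⟨hi X hX, hi Y hY⟩
    have hle := Finset.card_le_card hsub
    have hcount := zero_count φ X Y
    have hu : ∀ Z : G, Z ≠ 0 → (czero φ {Z}).card ≤ u := fun Z hZ => by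
      rcases h1 Z hZ with h | h <;> omega
    have e1 := hu X (hS0 X hX)
    have e2 := hu Y (hS0 Y hY)
    have e3 := hu (X + Y) (fun h => hYX' (add_eq_zero_iff_neg_eq.mp h).symm)
    have e4 := hu (X - Y) (fun h => hYX (sub_eq_zero.mp h).symm)
    omega

/-- the linear functional with natural number coefficients -/
def fnl {d : ℕ} (c : Fin d → ℕ) : (Fin d → ZMod 3) →+ ZMod 3 where
  toFun X := ∑ j, (c j : ZMod 3) * X j
  map_zero' := by simp
  map_add' X Y := by
    simp only [Pi.add_apply, mul_add, Finset.sum_add_distrib]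

theorem fnl_zero {d : ℕ} (c : Fin d → ℕ) (X : Fin d → ZMod 3) :
    fnl c X = 0 ↔ (∑ j, c j * (X j).val) % 3 = 0 := by
  have h : fnl c X = ((∑ j, c j * (X j).val : ℕ) : ZMod 3) := by
    show ∑ j, (c j : ZMod 3) * X j = _
    push_cast
    apply Finset.sum_congr rfl
    intro j _
    rw [ZMod.natCast_zmod_val]
  rw [h, ZMod.natCast_eq_zero_iff, Nat.dvd_iff_mod_eq_zero]


/-- the generator matrix of the extended ternary Golay code, one row per coordinate -/
def c12 : Fin 12 → Fin 6 → ℕ :=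
  ![![1, 0, 0, 0, 0, 0], ![0, 1, 0, 0, 0, 0], ![0, 0, 1, 0, 0, 0], ![0, 0, 0, 1, 0, 0],
    ![0, 0, 0, 0, 1, 0], ![0, 0, 0, 0, 0, 1], ![0, 1, 1, 1, 1, 1], ![1, 0, 1, 2, 2, 1],
    ![1, 1, 0, 1, 2, 2], ![1, 2, 1, 0, 1, 2], ![1, 2, 2, 1, 0, 1], ![1, 1, 2, 2, 1, 0]]

def c11 : Fin 11 → Fin 5 → ℕ :=
  ![![2, 1, 1, 2, 0], ![1, 0, 0, 0, 0], ![0, 1, 0, 0, 0], ![0, 0, 1, 0, 0], ![0, 0, 0, 1, 0],
    ![0, 0, 0, 0, 1], ![1, 1, 1, 1, 1], ![2, 2, 0, 1, 1], ![0, 1, 2, 1, 2], ![1, 2, 1, 0, 2],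
    ![1, 0, 2, 2, 1]]

theorem dec11 : ∀ a b c d e : Fin 3, (a = 0 ∧ b = 0 ∧ c = 0 ∧ d = 0 ∧ e = 0) ∨
    (Finset.univ.filter (fun i : Fin 11 => (∑ j, c11 i j * ((![a,b,c,d,e] : Fin 5 → Fin 3) j).val) % 3 = 0)).card ≤ 3 ∨
    (Finset.univ.filter (fun i : Fin 11 => (∑ j, c11 i j * ((![a,b,c,d,e] : Fin 5 → Fin 3) j).val) % 3 = 0)).card = 5 := by
  decide +kernel

theorem dec12 : ∀ a b c d e f : Fin 3, (a = 0 ∧ b = 0 ∧ c = 0 ∧ d = 0 ∧ e = 0 ∧ f = 0) ∨
    (Finset.univ.filter (fun i : Fin 12 =>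
      (∑ j, c12 i j * ((![a,b,c,d,e,f] : Fin 6 → Fin 3) j).val) % 3 = 0)).card ≤ 4 ∨
    (Finset.univ.filter (fun i : Fin 12 =>
      (∑ j, c12 i j * ((![a,b,c,d,e,f] : Fin 6 → Fin 3) j).val) % 3 = 0)).card = 6 := by
  decide +kernel

theorem czero_eq {k d : ℕ} (c : Fin k → Fin d → ℕ) (X : Fin d → ZMod 3) :
    (czero (fun i => fnl (c i)) {X}).card
      = (Finset.univ.filter (fun i : Fin k => (∑ j, c i j * (X j).val) % 3 = 0)).card := by
  congr 1
  ext i
  rw [mem_czero, Finset.mem_filter]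
  simp only [Finset.mem_singleton, forall_eq, Finset.mem_univ, true_and]
  exact fnl_zero (c i) X

theorem w11 (X : Fin 5 → ZMod 3) (hX : X ≠ 0) :
    (czero (fun i => fnl (c11 i)) {X}).card ≤ 3 ∨ (czero (fun i => fnl (c11 i)) {X}).card = 5 := by
  rw [czero_eq]
  have hX5 : X = ![X 0, X 1, X 2, X 3, X 4] := by
    ext j; fin_cases j <;> rfl
  rcases dec11 (X 0) (X 1) (X 2) (X 3) (X 4) with h | h
  · exfalso
    apply hX
    obtain ⟨h0, h1, h2, h3, h4⟩ := h
    funext j
    fin_cases j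
    · exact h0
    · exact h1
    · exact h2
    · exact h3
    · exact h4
  · rw [hX5]
    exact h

theorem w12 (X : Fin 6 → ZMod 3) (hX : X ≠ 0) :
    (czero (fun i => fnl (c12 i)) {X}).card ≤ 4 ∨ (czero (fun i => fnl (c12 i)) {X}).card = 6 := by
  rw [czero_eq]
  have hX6 : X = ![X 0, X 1, X 2, X 3, X 4, X 5] := by
    ext j; fin_cases j <;> rfl
  rcases dec12 (X 0) (X 1) (X 2) (X 3) (X 4) (X 5) with h | h
  · exfalso
    apply hX
    obtain ⟨h0, h1, h2, h3, h4, h5⟩ := h
    funext j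
    fin_cases j
    · exact h0
    · exact h1
    · exact h2
    · exact h3
    · exact h4
    · exact h5
  · rw [hX6]
    exact h

theorem mem11 : (5:ℝ) ∈ ES 11 {0, 1, 2, 3, 5} := by
  have h := hom_mem (G := Fin 5 → ZMod 3) (k := 11) (n := 3) (by norm_num)
    (fun i => fnl (c11 i)) (L := {0, 1, 2, 3, 5}) (by decide) (by
      intro S hS hS0
      rcases three_weights (fun i => fnl (c11 i)) w11 (by norm_num) (by norm_num) S hS hS0 with h | h
      · simp only [Finset.mem_insert, Finset.mem_singleton]; omega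
      · simp [h])
  have h2 : Real.log (Fintype.card (Fin 5 → ZMod 3)) / Real.log ((3:ℕ):ℝ) = 5 := by
    have h3 : Fintype.card (Fin 5 → ZMod 3) = 3 ^ 5 := by simp [ZMod.card]
    rw [h3, Nat.cast_pow, Real.log_pow]
    push_cast
    have : Real.log 3 ≠ 0 := (Real.log_pos (by norm_num)).ne'
    field_simp
  rw [← h2]; exact h

theorem mem12 : (6:ℝ) ∈ ES 12 {0, 1, 2, 3, 4, 6} := by
  have h := hom_mem (G := Fin 6 → ZMod 3) (k := 12) (n := 3) (by norm_num)
    (fun i => fnl (c12 i)) (L := {0, 1, 2, 3, 4, 6}) (by decide) (by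
      intro S hS hS0
      rcases three_weights (fun i => fnl (c12 i)) w12 (by norm_num) (by norm_num) S hS hS0 with h | h
      · simp only [Finset.mem_insert, Finset.mem_singleton]; omega
      · simp [h])
  have h2 : Real.log (Fintype.card (Fin 6 → ZMod 3)) / Real.log ((3:ℕ):ℝ) = 6 := by
    have h3 : Fintype.card (Fin 6 → ZMod 3) = 3 ^ 6 := by simp [ZMod.card]
    rw [h3, Nat.cast_pow, Real.log_pow]
    push_cast
    have : Real.log 3 ≠ 0 := (Real.log_pos (by norm_num)).ne'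
    field_simp
  rw [← h2]; exact h

end Pool.Agent.H480R2.LS
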